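import Pool.Agent.X227.LG.Main3

set_option autoImplicit false

/-! A strong Maltsev condition of height 1 with the local-global property for idempotent algebras
but not for all algebras. -/

namespace Pool.Agent.Results.MP_c8915d_al.IdempotentOnly

open Pool.Agent.X227.LG

universe u

/-- The condition with the ternary symbols `p, q` and the identities `p(x,z,z) ≈ p(x,x,x)`,
`p(x,x,z) ≈ q(x,z,z)`, `q(x,x,z) ≈ q(z,z,z)` has height 1, it has the local-global property for
the class of idempotent algebras, and it does not have the local-global property. -/
theorem result : sigma3.HeightOne ∧ Cond.LGIdem.{u} sigma3 ∧ ¬ Cond.LG.{u} sigma3 :=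
  ⟨ids3_heightOne, sigma3_lgIdem, sigma3_not_lg⟩

end Pool.Agent.Results.MP_c8915d_al.IdempotentOnly
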